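import Pool.Agent.TH266.NS.Defs2

/-!
# The asymptotic form of the key lemma (job 4098, MP_21ad85_ag)
-/

namespace Pool.Agent.TH266.NS

open Pool.Agent.TH603.EL Pool.Agent.TH880.NB Pool.Agent.TH176.Nag

namespace PAK

/-- from the key lemma at `τ` to the weighted plane -/
theorem step {r : ℕ} (hr : 1 ≤ r) {τ : ℝ} (h0 : 0 < τ) (h1 : τ < 1) (hkey : Key r τ) {n : ℕ}
    (h : PA n (4 * r * τ) (4 * r * (1 - τ))) : PA n 0 r := by
  unfold PA at h ⊢
  have hr0 : (0 : ℝ) < r := by exact_mod_cast hr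
  have e1 : (4 : ℝ) * r * τ + 4 * r * (1 - τ) = 2 ^ 2 * r := by ring
  rw [e1, Real.sqrt_mul (by norm_num), Real.sqrt_sq (by norm_num)] at h
  rw [zero_add]
  obtain ⟨B, hB⟩ : ∃ B : ℝ, B = √n * √r := ⟨_, rfl⟩
  have e2 : √(n : ℝ) * (2 * √(r : ℝ)) = 2 * B := by rw [hB]; ring
  rw [e2] at h
  rw [← hB]
  have hB0 : 0 ≤ B := by rw [hB]; positivity
  intro η hη
  obtain ⟨s1, hs1⟩ := h η hη
  obtain ⟨s2, hs2⟩ := exists_large (η := η) (c := 2 * r + 1) hη
  refine ⟨max s1 s2, fun s hs α => ?_⟩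
  have hs1' := hs1 s ((le_max_left _ _).trans hs)
  have hs2' := hs2 s ((le_max_right _ _).trans hs)
  have hBs : 0 ≤ B * s := mul_nonneg hB0 (Nat.cast_nonneg s)
  have hpos : 0 ≤ (B + η) * s - r + 1 := by
    have : (B + η) * s = B * s + η * s := by ring
    linarith
  obtain ⟨e, he⟩ : ∃ e : ℕ, e = ⌊(B + η) * s - r + 1⌋₊ := ⟨_, rfl⟩
  have he1 : (e : ℝ) ≤ (B + η) * s - r + 1 := by
    rw [he]
    exact Nat.floor_le hpos
  have he2 : (B + η) * s - r + 1 < e + 1 := by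
    rw [he]
    exact Nat.lt_floor_add_one _
  have hW : Rk (fun _ : Fin n => s) (Wtd r e) (n * (s + 1).choose 2) := by
    apply hkey
    refine (hs1' (-(2 * e * τ) + 1 / 2)).mono ?_
    rintro m ⟨g1, g2, g3⟩
    refine ⟨g1, ?_, ?_⟩
    · have e3 : -(2 * ((e : ℝ) - 2 * r * m.2) * τ) = -(2 * e * τ) + 4 * r * τ * m.2 := by ring
      rw [e3]
      linarith
    · have e3 : 2 * ((e : ℝ) - 2 * r * m.2) * (1 - τ) =
          -(2 * e * τ) + 2 * e - 4 * r * (1 - τ) * m.2 := by ring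
      rw [e3]
      have e4 : (2 * B + η) * s + (2 * r + 1) ≤ 2 * ((B + η) * s) := by
        have e5 : 2 * ((B + η) * s) = (2 * B + η) * s + η * s := by ring
        rw [e5]
        linarith
      linarith
  refine hW.image 1 0 0 1 ⌈α⌉ 0 (by norm_num) ?_
  rintro ⟨a, b⟩ ⟨g1, g2, g3⟩
  simp only at g1 g2 g3
  have hc1 : α ≤ ⌈α⌉ := Int.le_ceil α
  have hc2 : (⌈α⌉ : ℝ) < α + 1 := Int.ceil_lt_add_one α
  have ha : (0 : ℝ) ≤ a := by exact_mod_cast g1
  have g3' : (a : ℝ) + r * b ≤ e + r - 2 := by exact_mod_cast g3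
  refine ⟨?_, ?_, ?_⟩
  · simp only
    linarith
  · simp only
    push_cast
    linarith
  · simp only
    push_cast
    linarith

end PAK

theorem PA_of_key {r : ℕ} (hr : 2 ≤ r) (hkey : ∀ τ : ℝ, 0 < τ → τ < 1 / 2 → Key r τ) {n : ℕ}
    (hn : 4 * r ≤ n) : PA n 0 r := by
  have hr2 : (2 : ℝ) ≤ r := by exact_mod_cast hr
  have hr0 : (0 : ℝ) < r := by linarith
  have hn' : (4 : ℝ) * r ≤ n := by exact_mod_cast hn
  have hn0 : (0 : ℝ) < n := by linarith
  obtain ⟨q, hq⟩ : ∃ q : ℝ, q = 2 * √((r : ℝ) * n) := ⟨_, rfl⟩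
  have hq2 : q * q = 4 * (r * n) := by
    rw [hq]
    have := Real.mul_self_sqrt (show (0 : ℝ) ≤ r * n by positivity)
    linear_combination 4 * this
  have hq0 : 0 < q := by
    rw [hq]
    positivity
  have hq4 : 4 * r ≤ q := by
    by_contra hc
    push Not at hc
    nlinarith
  obtain ⟨v, hv⟩ : ∃ v : ℤ, v = ⌈q⌉ - 1 := ⟨_, rfl⟩
  have hv1 : (v : ℝ) < q := by
    rw [hv]
    push_cast
    have := Int.ceil_lt_add_one q
    linarith
  have hv2 : q - v ≤ 1 := by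
    rw [hv]
    push_cast
    have := Int.le_ceil q
    linarith
  obtain ⟨τ, hτ⟩ : ∃ τ : ℝ, τ = (q - v) / (4 * r) := ⟨_, rfl⟩
  have hτm : 4 * r * τ = q - v := by
    rw [hτ]
    field_simp
  have hτ0 : 0 < τ := by
    rw [hτ]
    have : 0 < q - v := by linarith
    positivity
  have hτ1 : τ < 1 / 2 := by
    by_contra hc
    push Not at hc
    nlinarith
  refine PAK.step (by omega) hτ0 (by linarith) (hkey τ hτ0 hτ1) ?_
  have hn1 : 1 ≤ n := by omega
  have e1 : 4 * (r : ℝ) * (1 - τ) = 4 * r - (q - v) := by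
    rw [← hτm]; ring
  rw [hτm, e1]
  refine (PA.closed hn1).stepA 1 v isCoprime_one_left (by norm_num) ?_ ?_ ?_ ?_
  · push_cast
    linarith
  · push_cast
    linarith
  · linarith
  · have e2 : ((1 : ℤ) : ℝ) * (((1 : ℤ) : ℝ) * (q - v) + v) = q := by
      push_cast
      ring
    have e3 : ((v : ℝ) - ((1 : ℤ) : ℝ) * (4 * r - (q - v))) * (((1 : ℤ) : ℝ) * (q - v) + v) /
        ((q - v) + (4 * r - (q - v))) = n - q := by
      have e4 : ((q - v) + (4 * r - (q - v)) : ℝ) = 4 * r := by ring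
      rw [e4, div_eq_iff (by positivity)]
      push_cast
      linear_combination hq2
    rw [e2, e3]
    unfold PA
    have e5 : q + (n - q) = (n : ℝ) := by ring
    have hq_le : q ≤ n := by
      by_contra hc
      push Not at hc
      nlinarith
    rw [e5, Real.mul_self_sqrt hn0.le]
    exact AS.base n hq0.le (by linarith) e5

end Pool.Agent.TH266.NS
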